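import Pool.Agent.W313.HB.Stm

set_option autoImplicit false

open Finset

namespace Pool.Agent.W766.HB.Lsv

open Pool.Agent.W313.HB

theorem jac_abs (a : ℤ) (n : ℕ) : |(jacobiSym a n : ℤ)| ≤ 1 := by
  rcases jacobiSym.trichotomy a n with h | h | h <;> rw [h] <;> norm_num

open Classical in
theorem lsv_ (h : S_PER) : S_LSV := by
  intro ι s w m X Y hXY
  set N := (Ioc X Y).filter (fun n => Odd n) with hN
  have e1 : ∑ n ∈ N, (∑ i ∈ s, w i * (jacobiSym (m i) n : ℝ)) ^ 2 =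
      ∑ x ∈ s ×ˢ s, w x.1 * w x.2 * ((∑ n ∈ N, jacobiSym (m x.1 * m x.2) n : ℤ) : ℝ) := by
    have : ∀ n ∈ N, (∑ i ∈ s, w i * (jacobiSym (m i) n : ℝ)) ^ 2 =
        ∑ x ∈ s ×ˢ s, w x.1 * w x.2 * (jacobiSym (m x.1 * m x.2) n : ℝ) := by
      intro n _
      rw [sq, Finset.sum_mul_sum, ← Finset.sum_product']
      refine Finset.sum_congr rfl fun x _ => ?_
      rw [jacobiSym.mul_left]
      push_cast
      ring
    rw [Finset.sum_congr rfl this, Finset.sum_comm]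
    refine Finset.sum_congr rfl fun x _ => ?_
    rw [Int.cast_sum, Finset.mul_sum]
  have hcard : ((N.card : ℕ) : ℝ) ≤ (Y : ℝ) - X := by
    have h1 : N.card ≤ Y - X := (Finset.card_filter_le _ _).trans (by rw [Nat.card_Ioc])
    have h2 : ((N.card : ℕ) : ℝ) ≤ ((Y - X : ℕ) : ℝ) := by exact_mod_cast h1
    rwa [Nat.cast_sub hXY] at h2
  have hsq : ∀ x : ι × ι, |((∑ n ∈ N, jacobiSym (m x.1 * m x.2) n : ℤ) : ℝ)| ≤ (Y : ℝ) - X := by
    intro x
    refine le_trans ?_ hcard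
    have h1 : |∑ n ∈ N, jacobiSym (m x.1 * m x.2) n| ≤ (N.card : ℤ) := by
      refine (Finset.abs_sum_le_sum_abs _ _).trans ?_
      refine (Finset.sum_le_sum fun n _ => jac_abs _ n).trans ?_
      simp
    exact_mod_cast h1
  have hns : ∀ x : ι × ι, ¬ IsSquare (m x.1 * m x.2) →
      |((∑ n ∈ N, jacobiSym (m x.1 * m x.2) n : ℤ) : ℝ)| ≤ 4 * (|(m x.1 : ℝ)| * |(m x.2 : ℝ)|) := by
    intro x hx
    have h1 := h _ hx X Y
    rw [← abs_mul]
    exact_mod_cast h1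
  rw [e1, ← Finset.sum_filter_add_sum_filter_not (s ×ˢ s) (fun x => IsSquare (m x.1 * m x.2))]
  refine add_le_add ?_ ?_
  · rw [Finset.mul_sum]
    refine Finset.sum_le_sum fun x _ => ?_
    refine (le_abs_self _).trans ?_
    rw [abs_mul, abs_mul]
    calc |w x.1| * |w x.2| * |((∑ n ∈ N, jacobiSym (m x.1 * m x.2) n : ℤ) : ℝ)|
        ≤ |w x.1| * |w x.2| * ((Y : ℝ) - X) :=
          mul_le_mul_of_nonneg_left (hsq x) (by positivity)
      _ = _ := by ring
  · have e2 : 4 * (∑ i ∈ s, |w i| * |(m i : ℝ)|) ^ 2 =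
        ∑ x ∈ s ×ˢ s, |w x.1| * |w x.2| * (4 * (|(m x.1 : ℝ)| * |(m x.2 : ℝ)|)) := by
      rw [sq, Finset.sum_mul_sum, ← Finset.sum_product', Finset.mul_sum]
      refine Finset.sum_congr rfl fun x _ => ?_
      ring
    rw [e2]
    refine le_trans ?_ (Finset.sum_le_sum_of_subset_of_nonneg (Finset.filter_subset
      (fun x => ¬ IsSquare (m x.1 * m x.2)) (s ×ˢ s)) fun x _ _ => by positivity)
    refine Finset.sum_le_sum fun x hx => ?_
    rw [Finset.mem_filter] at hx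
    refine (le_abs_self _).trans ?_
    rw [abs_mul, abs_mul]
    exact mul_le_mul_of_nonneg_left (hns x hx.2) (by positivity)

end Pool.Agent.W766.HB.Lsv
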